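import Mathlib
import Pool.Agent.N783.PQ.Lat

/-!
# The neighbour lattice at a weakly divisible prime (project PQ of helper783, part NBR)
-/

set_option autoImplicit false

open Polynomial Matrix

namespace Pool.Agent.N322.PQ

open Pool.Agent.N783.PQ
open Pool.Agent.N352.PJ (Mt)

section top

variable {L : Type} [Field L] [NumberField L] {g : ℕ} {f : ℤ[X]} {θ : L}

theorem top_pow (hG : IsGen g f θ) (i : Fin (2 * g + 1)) :
    hG.top (θ ^ (i : ℕ)) = if i = Fin.last (2 * g) then 1 else 0 := by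
  rw [← hG.basis_apply, IsGen.top, Module.Basis.coord_apply, Module.Basis.repr_self,
    Finsupp.single_apply]

theorem top_le (hG : IsGen g f θ) (p : ℤ[X]) (hp : p.natDegree < 2 * g + 1) :
    hG.top (aeval θ p) = p.coeff (2 * g) := by
  rw [aeval_eq_sum_range' hp, Finset.sum_range, map_sum,
    Finset.sum_eq_single (Fin.last (2 * g))]
  · rw [map_zsmul, top_pow, if_pos rfl]
    simp
  · intro i _ hi
    rw [map_zsmul, top_pow, if_neg hi, smul_zero]
  · intro h
    exact absurd (Finset.mem_univ _) h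

theorem top_int (hG : IsGen g f θ) (p : ℤ[X]) : ∃ n : ℤ, hG.top (aeval θ p) = n := by
  rw [← aeval_modByMonic_eq_self_of_root hG.root]
  refine ⟨_, top_le hG _ ?_⟩
  have h1 : f ≠ 1 := by
    intro h
    have h2 := hG.deg
    rw [h, natDegree_one] at h2
    omega
  have h3 := natDegree_modByMonic_lt p hG.mon h1
  rwa [hG.deg] at h3

theorem top_sh (hG : IsGen g f θ) (c : ℤ) (p : ℤ[X]) :
    ∃ n : ℤ, hG.top (aeval (θ - (c : L)) p) = n := by
  have h1 : aeval (θ - (c : L)) p = aeval θ (p.comp (X - C c)) := by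
    rw [aeval_comp]
    simp
  rw [h1]
  exact top_int hG _

theorem top_pow_sh (hG : IsGen g f θ) (c : ℤ) {i : ℕ} (hi : i ≤ 2 * g) :
    hG.top ((θ - (c : L)) ^ i) = if i = 2 * g then 1 else 0 := by
  have h1 : (θ - (c : L)) ^ i = aeval θ ((X - C c) ^ i : ℤ[X]) := by simp
  have h2 : ((X - C c) ^ i : ℤ[X]).natDegree = i := by
    rw [(monic_X_sub_C c).natDegree_pow, natDegree_X_sub_C, mul_one]
  rw [h1, top_le hG _ (by omega)]
  split_ifs with h
  · have h3 : ((X - C c) ^ i : ℤ[X]).coeff ((X - C c) ^ i : ℤ[X]).natDegree = 1 :=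
      ((monic_X_sub_C c).pow i).coeff_natDegree
    rw [h2, h] at h3
    rw [h, h3]
    norm_num
  · rw [coeff_eq_zero_of_natDegree_lt (by omega)]
    norm_num

theorem top_le_sh (hG : IsGen g f θ) (c : ℤ) (p : ℤ[X]) (hp : p.natDegree < 2 * g + 1) :
    hG.top (aeval (θ - (c : L)) p) = p.coeff (2 * g) := by
  rw [aeval_eq_sum_range' hp, map_sum, Finset.sum_eq_single (2 * g)]
  · rw [map_zsmul, top_pow_sh hG c le_rfl, if_pos rfl]
    simp
  · intro i hi hi'
    rw [map_zsmul, top_pow_sh hG c (by have := Finset.mem_range.1 hi; omega), if_neg hi',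
      smul_zero]
  · intro h
    exact absurd (Finset.mem_range.2 (Nat.lt_succ_self _)) h

end top

theorem nbr : S_NBR := by
  intro g P L _ _ f θ hg hP hP2 hG hw
  obtain ⟨c, hc0, hc1⟩ := hw
  have hchar : CharZero L := inferInstance
  have hPL : (P : L) ≠ 0 := Nat.cast_ne_zero.2 hP.ne_zero
  have hPQ : (P : ℚ) ≠ 0 := Nat.cast_ne_zero.2 hP.ne_zero
  obtain ⟨t, ht⟩ : ∃ t : L, t = θ - (c : L) := ⟨_, rfl⟩
  have hθ : θ = t + (c : L) := by rw [ht]; ring
  -- the polynomials
  obtain ⟨F, hF⟩ : ∃ F : ℤ[X], F = f.comp (X + C c) := ⟨_, rfl⟩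
  have hFm : F.Monic := by rw [hF]; exact hG.mon.comp_X_add_C c
  have hFd : F.natDegree = 2 * g + 1 := by
    rw [hF, natDegree_comp, natDegree_X_add_C, mul_one, hG.deg]
  have hF0 : F.coeff 0 = f.eval c := by
    rw [hF, ← taylor_apply, taylor_coeff_zero]
  have hF1 : F.coeff 1 = (derivative f).eval c := by
    rw [hF, ← taylor_apply, taylor_coeff_one]
  have hFt : aeval t F = 0 := by
    rw [hF, aeval_comp]
    have h1 : aeval t (X + C c : ℤ[X]) = θ := by rw [hθ]; simp
    rw [h1, hG.root]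
  obtain ⟨G, hGd⟩ : ∃ G : ℤ[X], G = F.divX.divX := ⟨_, rfl⟩
  have hGc : ∀ n, G.coeff n = F.coeff (n + 2) := by
    intro n
    rw [hGd, coeff_divX, coeff_divX]
  have hGe : aeval t F = t ^ 2 * aeval t G + (F.coeff 1 : L) * t + (F.coeff 0 : L) := by
    have h1 := divX_mul_X_add F
    have h2 := divX_mul_X_add F.divX
    rw [← h2, coeff_divX, ← hGd] at h1
    conv_lhs => rw [← h1]
    simp
    ring
  obtain ⟨b0, hb0⟩ := hc0
  obtain ⟨b1, hb1⟩ := hc1
  rw [← hF0] at hb0
  rw [← hF1] at hb1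
  rw [hFt, hb0, hb1] at hGe
  push_cast at hGe
  have hXG : (X * G).natDegree < 2 * g + 1 := by
    rw [Nat.lt_succ_iff, natDegree_le_iff_coeff_eq_zero]
    intro n hn
    obtain ⟨n, rfl⟩ : ∃ m, n = m + 1 := ⟨n - 1, by omega⟩
    rw [coeff_X_mul, hGc]
    exact coeff_eq_zero_of_natDegree_lt (by omega)
  have hG' : G.natDegree < 2 * g + 1 := by
    rw [Nat.lt_succ_iff, natDegree_le_iff_coeff_eq_zero]
    intro n hn
    rw [hGc]
    exact coeff_eq_zero_of_natDegree_lt (by omega)
  have hGtop : hG.top (aeval t G) = 0 := by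
    rw [ht, top_le_sh hG c G hG', hGc, coeff_eq_zero_of_natDegree_lt (by omega)]
    norm_num
  -- the element `η`
  obtain ⟨η, hη⟩ : ∃ η : L, η = t * aeval t G / P := ⟨_, rfl⟩
  have hPη : (P : L) * η = aeval t (X * G) := by
    rw [hη, map_mul, aeval_X]
    field_simp
  have htη : t * η = -((b1 : L) * t + (P : L) * b0) := by
    rw [hη]
    field_simp
    linear_combination (-1 : L) * hGe
  have hηη : η * η = -((b1 : L) * η + b0 * aeval t G) := by
    have h1 : (P : L) * (η * η) = aeval t G * (t * η) := by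
      rw [hη]
      field_simp
    rw [htη] at h1
    have h2 : aeval t G * t = (P : L) * η := by
      rw [hη]
      field_simp
    have h3 : (P : L) * (η * η) = (P : L) * (-((b1 : L) * η + b0 * aeval t G)) := by
      rw [h1]
      linear_combination (-(b1 : L)) * h2
    exact mul_left_cancel₀ hPL h3
  have hPηtop : hG.top ((P : L) * η) = 1 := by
    rw [hPη, ht, top_le_sh hG c _ hXG]
    obtain ⟨m, hm⟩ : ∃ m, 2 * g = m + 1 := ⟨2 * g - 1, by omega⟩
    have h1 : (X * G).coeff (2 * g) = 1 := by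
      rw [hm, coeff_X_mul, hGc]
      have h2 : F.coeff F.natDegree = 1 := hFm.coeff_natDegree
      rw [hFd] at h2
      rw [← h2]
      congr 1
      omega
    rw [h1]
    norm_num
  have htopmul : ∀ (n : ℤ) (x : L), hG.top ((n : L) * x) = n * hG.top x := by
    intro n x
    rw [← zsmul_eq_mul, map_zsmul, zsmul_eq_mul]
  have htopmulP : ∀ (x : L), hG.top ((P : L) * x) = P * hG.top x := by
    intro x
    have := htopmul (P : ℤ) x
    push_cast at this
    exact this
  have hηtop : hG.top η = 1 / P := by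
    rw [htopmulP] at hPηtop
    field_simp
    linarith
  have hone : hG.top (1 : L) = 0 := by
    have := top_pow_sh hG c (i := 0) (by omega)
    rwa [pow_zero, if_neg (by omega)] at this
  -- the integer `s`
  obtain ⟨s, r, hsr⟩ : ∃ s r : ℤ, 2 * s - b1 = P * r := by
    obtain ⟨k, hk⟩ := hP.odd_of_ne_two hP2
    refine ⟨(k + 1) * b1, b1, ?_⟩
    rw [hk]
    push_cast
    ring
  -- the subring
  obtain ⟨Z, hZ⟩ : ∃ Z : Subalgebra ℤ L, Z = (aeval t : ℤ[X] →ₐ[ℤ] L).range := ⟨_, rfl⟩
  have hZtop : ∀ x ∈ Z, ∃ n : ℤ, (n : ℚ) = hG.top x := by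
    intro x hx
    rw [hZ] at hx
    obtain ⟨p, rfl⟩ := hx
    obtain ⟨n, hn⟩ := top_sh hG c p
    refine ⟨n, ?_⟩
    rw [← hn, ht]
    rfl
  have hZe : ∀ p : ℤ[X], aeval t p ∈ Z := by
    intro p
    rw [hZ]
    exact ⟨p, rfl⟩
  have hZt : t ∈ Z := by
    have := hZe X
    rwa [aeval_X] at this
  have hZi : ∀ n : ℤ, (n : L) ∈ Z := fun n => by
    have := hZe (C n)
    rwa [aeval_C, algebraMap_int_eq, eq_intCast] at this
  have hZP : (P : L) ∈ Z := by
    have := hZi P
    push_cast at this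
    exact this
  have hZtη : t * η ∈ Z := by
    rw [htη]
    exact Z.neg_mem (Z.add_mem (Z.mul_mem (hZi _) hZt) (Z.mul_mem hZP (hZi _)))
  have hZPη : (P : L) * η ∈ Z := by
    rw [hPη]
    exact hZe _
  have hZtηη : t * (η * η) ∈ Z := by
    have h1 : t * (η * η) = -((b1 : L) * (t * η) + b0 * (t * aeval t G)) := by
      rw [hηη]
      ring
    rw [h1]
    exact Z.neg_mem (Z.add_mem (Z.mul_mem (hZi _) hZtη)
      (Z.mul_mem (hZi _) (Z.mul_mem hZt (hZe _))))
  -- the basis
  let e : Fin (2 * g + 1) → L := fun i =>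
    if (i : ℕ) = 2 * g then η + s else if (i : ℕ) = 0 then (P : L) else t ^ (i : ℕ)
  have helast : ∀ i : Fin (2 * g + 1), (i : ℕ) = 2 * g → e i = η + s := fun i hi => if_pos hi
  have hezero : ∀ i : Fin (2 * g + 1), (i : ℕ) = 0 → e i = P := fun i hi => by
    change (if (i : ℕ) = 2 * g then η + s else if (i : ℕ) = 0 then (P : L) else t ^ (i : ℕ)) = P
    rw [if_neg (by omega), if_pos hi]
  have hemid : ∀ i : Fin (2 * g + 1), (i : ℕ) ≠ 0 → (i : ℕ) ≠ 2 * g → e i = t ^ (i : ℕ) :=
    fun i hi hi' => by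
    change (if (i : ℕ) = 2 * g then η + s else if (i : ℕ) = 0 then (P : L) else t ^ (i : ℕ)) = _
    rw [if_neg hi', if_neg hi]
  have hZ1 : ∀ i : Fin (2 * g + 1), (i : ℕ) ≠ 2 * g → e i ∈ Z ∧ e i * η ∈ Z := by
    intro i hi
    by_cases h0 : (i : ℕ) = 0
    · rw [hezero i h0]
      exact ⟨hZP, hZPη⟩
    · rw [hemid i h0 hi]
      refine ⟨Z.pow_mem hZt _, ?_⟩
      obtain ⟨m, hm⟩ : ∃ m, (i : ℕ) = m + 1 := ⟨(i : ℕ) - 1, by omega⟩
      rw [hm, pow_succ, mul_assoc]
      exact Z.mul_mem (Z.pow_mem hZt _) hZtη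
  have hZ2 : ∀ i j : Fin (2 * g + 1), (i : ℕ) ≠ 2 * g → e i * e j ∈ Z := by
    intro i j hi
    by_cases hj : (j : ℕ) = 2 * g
    · rw [helast j hj, mul_add]
      exact Z.add_mem (hZ1 i hi).2 (Z.mul_mem (hZ1 i hi).1 (hZi _))
    · exact Z.mul_mem (hZ1 i hi).1 (hZ1 j hj).1
  have hA : ∀ i j : Fin (2 * g + 1), ∃ n : ℤ, (n : ℚ) = hG.top (e i * e j) := by
    intro i j
    by_cases hi : (i : ℕ) = 2 * g
    · by_cases hj : (j : ℕ) = 2 * g
      · rw [helast i hi, helast j hj]
        refine ⟨r, ?_⟩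
        have h1 : (η + (s : L)) * (η + s) = ((2 * s - b1 : ℤ) : L) * η +
            ((s ^ 2 : ℤ) : L) * 1 - (b0 : L) * aeval t G := by
          push_cast
          linear_combination hηη
        rw [h1, map_sub, map_add, htopmul, htopmul, htopmul, hone, hGtop, hηtop, hsr]
        push_cast
        field_simp
        ring
      · rw [mul_comm]
        exact hZtop _ (hZ2 j i hj)
    · exact hZtop _ (hZ2 i j hi)
  have hB : ∀ i j : Fin (2 * g + 1), ∃ n : ℤ, (n : ℚ) = hG.top (θ * (e i * e j)) := by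
    intro i j
    obtain ⟨n1, hn1⟩ := hA i j
    have h1 : t * (e i * e j) ∈ Z := by
      by_cases hi : (i : ℕ) = 2 * g
      · by_cases hj : (j : ℕ) = 2 * g
        · rw [helast i hi, helast j hj]
          have h1 : t * ((η + (s : L)) * (η + s)) = t * (η * η) + (2 * s : ℤ) * (t * η) +
              (s ^ 2 : ℤ) * t := by
            push_cast
            ring
          rw [h1]
          exact Z.add_mem (Z.add_mem hZtηη (Z.mul_mem (hZi _) hZtη)) (Z.mul_mem (hZi _) hZt)
        · rw [mul_comm (e i)]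
          exact Z.mul_mem hZt (hZ2 j i hj)
      · exact Z.mul_mem hZt (hZ2 i j hi)
    obtain ⟨n2, hn2⟩ := hZtop _ h1
    refine ⟨n2 + c * n1, ?_⟩
    have h2 : θ * (e i * e j) = t * (e i * e j) + (c : L) * (e i * e j) := by
      rw [ht]
      ring
    rw [h2, map_add, htopmul, ← hn2, ← hn1]
    push_cast
    ring
  choose A hA using hA
  choose B hB using hB
  have htsh : ∀ i ≤ 2 * g, hG.top (t ^ i) = if i = 2 * g then 1 else 0 := by
    intro i hi
    rw [ht]
    exact top_pow_sh hG c hi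
  have hAsymm : ∀ i j, A i j = A j i := by
    intro i j
    have h1 : ((A i j : ℤ) : ℚ) = A j i := by rw [hA, hA, mul_comm]
    exact_mod_cast h1
  have hA0 : ∀ i j : Fin (2 * g + 1), (i : ℕ) + j < 2 * g → A i j = 0 := by
    intro i j hij
    have h0 : ∀ i : Fin (2 * g + 1), (i : ℕ) < 2 * g → ∃ a : ℤ, e i = a * t ^ (i : ℕ) := by
      intro i hi
      by_cases h0 : (i : ℕ) = 0
      · refine ⟨P, ?_⟩
        rw [hezero i h0, h0]
        push_cast
        ring
      · refine ⟨1, ?_⟩
        rw [hemid i h0 hi.ne]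
        push_cast
        ring
    obtain ⟨a, ha⟩ := h0 i (by omega)
    obtain ⟨b, hb⟩ := h0 j (by omega)
    have h1 : ((A i j : ℤ) : ℚ) = 0 := by
      have h2 : (a : L) * t ^ (i : ℕ) * (b * t ^ (j : ℕ)) =
          ((a * b : ℤ) : L) * t ^ ((i : ℕ) + j) := by
        push_cast
        ring
      rw [hA, ha, hb, h2, htopmul, htsh _ hij.le, if_neg hij.ne, mul_zero]
    exact_mod_cast h1
  have hA1' : ∀ i j : Fin (2 * g + 1), (i : ℕ) + j = 2 * g → (i : ℕ) ≠ 2 * g → A i j = 1 := by
    intro i j hij hi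
    have h1 : ((A i j : ℤ) : ℚ) = 1 := by
      rw [hA]
      by_cases h0 : (i : ℕ) = 0
      · rw [hezero i h0, helast j (by omega), mul_add, map_add, hPηtop]
        have h2 : (P : L) * (s : L) = ((P * s : ℤ) : L) * 1 := by push_cast; ring
        rw [h2, htopmul, hone, mul_zero, add_zero]
      · rw [hemid i h0 hi, hemid j (by omega) (by omega), ← pow_add, hij, htsh _ le_rfl,
          if_pos rfl]
    exact_mod_cast h1
  have hA1 : ∀ i j : Fin (2 * g + 1), (i : ℕ) + j = 2 * g → A i j = 1 := by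
    intro i j hij
    by_cases hi : (i : ℕ) = 2 * g
    · rw [hAsymm]
      exact hA1' j i (by omega) (by omega)
    · exact hA1' i j hij hi
  have hdet : (Matrix.of A).det = 1 ∨ (Matrix.of A).det = -1 := by
    have h1 : ((Matrix.of A).submatrix Fin.revPerm id).det = 1 := by
      rw [Matrix.det_of_isUpperTriangular]
      · refine Finset.prod_eq_one fun i _ => ?_
        rw [Matrix.submatrix_apply, Matrix.of_apply]
        apply hA1
        rw [Fin.revPerm_apply, Fin.val_rev, id]
        have := i.2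
        omega
      · intro i j hij
        rw [Matrix.submatrix_apply, Matrix.of_apply]
        apply hA0
        rw [Fin.revPerm_apply, Fin.val_rev, id]
        have h2 : (j : ℕ) < i := hij
        have := i.2
        omega
    rw [Matrix.det_permute] at h1
    rcases Int.units_eq_one_or (Equiv.Perm.sign (Fin.revPerm : Equiv.Perm (Fin (2 * g + 1))))
      with h2 | h2
    · rw [h2] at h1
      left
      simpa using h1
    · rw [h2] at h1
      right
      push_cast at h1
      linarith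
  refine ⟨e, Matrix.of A, Matrix.of B, ⟨hdet, fun i j => ?_, fun i j => ?_⟩, ?_, ?_⟩
  · rw [Matrix.of_apply, div_one]
    exact hA i j
  · rw [Matrix.of_apply, div_one]
    exact hB i j
  · refine ⟨Pi.single 0 1, ?_⟩
    rw [Finset.sum_eq_single 0]
    · rw [Pi.single_eq_same, hezero 0 rfl]
      push_cast
      ring
    · intro i _ hi
      rw [Pi.single_eq_of_ne hi]
      push_cast
      ring
    · intro h
      exact absurd (Finset.mem_univ _) h
  · rintro j ⟨v, hv⟩
    have h1 : hG.top ((j : L) * e (Fin.last (2 * g))) =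
        ∑ i, (v i : ℚ) * (A i (Fin.last (2 * g)) : ℚ) := by
      rw [hv, Finset.sum_mul, map_sum]
      refine Finset.sum_congr rfl fun i _ => ?_
      rw [mul_assoc, htopmul, hA]
    rw [htopmul, helast _ (Fin.val_last _), map_add, hηtop] at h1
    have h2 : hG.top (s : L) = 0 := by
      have := htopmul s 1
      rwa [mul_one, hone, mul_zero] at this
    rw [h2, add_zero] at h1
    refine ⟨∑ i, v i * A i (Fin.last (2 * g)), ?_⟩
    have h3 : (j : ℚ) = P * ∑ i, (v i : ℚ) * (A i (Fin.last (2 * g)) : ℚ) := by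
      rw [← h1]
      field_simp
    exact_mod_cast h3

end Pool.Agent.N322.PQ
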